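import Pool.Agent.X46.F5D.Chk
import Pool.Agent.X46.F5D.Psd
import Pool.Agent.X46.F5.Cnt

set_option autoImplicit false
set_option maxRecDepth 100000
set_option maxHeartbeats 4000000
open Finset

namespace Pool.Agent.X46.F5D
open Pool.Agent.H122R2.N6 Pool.Agent.H37R3.Pen Pool.Agent.X46.F5

theorem hc (b012 b013 b023 b123 b014 b024 b124 b034 b134 b234 : ℕ) (hb012 : Bt b012) (hb013 : Bt b013) (hb023 : Bt b023) (hb123 : Bt b123) (hb014 : Bt b014) (hb024 : Bt b024) (hb124 : Bt b124) (hb034 : Bt b034) (hb134 : Bt b134) (hb234 : Bt b234) (ht : tg b012 b013 b023 b123 b014 b024 b124 b034 b134 b234 = 4) :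
    chk q4 q2 CST b012 b013 b023 b123 b014 b024 b124 b034 b134 b234 = true := by
  have h : part b012 b013 = true := by
    rcases hb012 with rfl | rfl <;> rcases hb013 with rfl | rfl
    exacts [part00, part01, part10, part11]
  have h2 := (B2_true (B2_true (B2_true (B2_true (B2_true (B2_true (B2_true (B2_true h hb023) hb123) hb014) hb024) hb124) hb034) hb134) hb234)
  refine or_false_left h2 ?_
  rw [ht]
  rfl

theorem g4_all {r i j : ℕ} (hr : r < 4) (hi : i < 64) (hj : j < 64) : g4 r i j = true := by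
  have h : chk4 r = true := by
    interval_cases r
    exacts [cp0, cp1, cp2, cp3]
  exact nall_true (nall_true h i hi) j hj

theorem hq4 (c i j : ℕ) (hc : c < 16) (hi : i < 64) (hj : j < 64) : (q4 c i j : ℤ) =
    ∑ k ∈ range 79, (w4 (rho c) k : ℤ) * ((l4 (rho c) (pc c i) k : ℤ) - 8388608) *
      ((l4 (rho c) (pc c j) k : ℤ) - 8388608) + (4611686018427387904 +
        ((wf F6 F7 (Nat.add (rho c) (pcnt (pc c i))) : ℤ) + (wf F6 F7 (Nat.add (rho c) (pcnt (pc c j))) : ℤ))) := by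
  have h := Nat.eq_of_beq_eq_true (g4_all (rho_lt hc) (pc_lt hc hi) (pc_lt hc hj))
  unfold ll sw sl at h
  rw [nsum_eq, nsum_eq, nsum_eq, nsum_eq] at h
  have h2 := congrArg (fun n : ℕ => (n : ℤ)) h
  have h3 : (q4 c i j : ℤ) = (tq (rho c) (pc c i) (pc c j) : ℤ) := rfl
  rw [h3]
  generalize wf F6 F7 (Nat.add (rho c) (pcnt (pc c i))) = wi at h2 ⊢
  generalize wf F6 F7 (Nat.add (rho c) (pcnt (pc c j))) = wj at h2 ⊢
  simp only [Nat.add_eq, Nat.mul_eq] at h2
  push_cast at h2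
  rw [expand (range 79) (fun k => w4 (rho c) k) (fun k => l4 (rho c) (pc c i) k)
    (fun k => l4 (rho c) (pc c j) k) 8388608]
  linarith

theorem hq2 (i j : ℕ) (hi : i < 16) (hj : j < 16) : (q2 i j : ℤ) =
    ∑ k ∈ range 9, (w2 k : ℤ) * ((l2 i k : ℤ) - 8388608) * ((l2 j k : ℤ) - 8388608)
      + (4611686018427387904 + (-2849934139195392) * ((kk i j : ℕ) : ℤ)) := by
  have h := Nat.eq_of_beq_eq_true (nall_true (nall_true cpb i hi) j hj)
  unfold ll2 sw2 sl2 at h
  rw [nsum_eq, nsum_eq, nsum_eq, nsum_eq] at h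
  have h2 := congrArg (fun n : ℕ => (n : ℤ)) h
  simp only [Nat.add_eq, Nat.mul_eq] at h2
  push_cast at h2
  rw [expand (range 9) (fun k => w2 k) (fun k => l2 i k) (fun k => l2 j k) 8388608]
  linarith

theorem main {V : Type} [Fintype V] {H : Finset (Finset V)} (hH : ∀ e ∈ H, e.card = 3)
    (hF : K43Free H) (q6 q7 : ℕ) (h5 : (120 : ℤ) * (F6 * q6 + F7 * q7) ≤ S5 (tri H) (fun c i => (wf F6 F7 (Nat.add (rho c) (pcnt (pc c i))) : ℤ))) :
    30 * ((Fintype.card V : ℤ) * (120 * (54 * q6 + 270 * q7))) + 180 * (-27) * (Fintype.card V : ℤ) ^ 3 * (6 * (H.card : ℤ))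
      ≤ 1000 * (Fintype.card V : ℤ) ^ 6 := by
  have hE := tri_sy H
  have hb := bound3 (tri H) hE 79 9 CST q4
    (fun c k => w4 (rho c) k) (fun c i k => l4 (rho c) (pc c i) k)
    q2 w2 l2 8388608 4611686018427387904 4611686018427387904
    (fun c i => (wf F6 F7 (Nat.add (rho c) (pcnt (pc c i))) : ℤ)) (fun k => (-2849934139195392) * (k : ℤ)) hq4 hq2
    (leaf_all hE (tri_noK4 hH hF) cs4 cs2 hc)
  rw [T2_lin (tri H) hE, sum_tri hH] at hb
  have hC : (CST : ℤ) = 276806714221909770240 := rfl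
  have h6 : (F6 : ℤ) = 5699868278390784 := rfl
  have h7 : (F7 : ℤ) = 28499341391953920 := rfl
  rw [hC] at hb
  rw [h6, h7] at h5
  have h3 : (0 : ℤ) ≤ (Fintype.card V : ℤ) := by positivity
  have h4 := mul_le_mul_of_nonneg_left h5 h3
  have hK : (0 : ℤ) < 105553116266496 := by norm_num
  refine le_of_mul_le_mul_left ?_ hK
  linarith

end Pool.Agent.X46.F5D
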